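import Mathlib
import Pool.Agent.H33.GrothDefs
import Pool.Agent.H33.GrothEx

/-!
A perfect preimage of a Grothendieck space that is not even weakly Grothendieck.
-/

namespace Pool.Agent.Results.MP_590c78_gt.PerfectPreimageCounter

open Pool.Agent.H33.GrothDefs

theorem result : ∃ (X Y : Type) (_ : TopologicalSpace X) (_ : TopologicalSpace Y)
    (_ : T35Space X) (_ : T35Space Y) (f : X → Y), Continuous f ∧ IsClosedMap f ∧
      Function.Surjective f ∧ (∀ y, IsCompact (f ⁻¹' {y})) ∧ IsGrothendieck Y ∧
      ¬ IsWeaklyGrothendieck X :=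
  Pool.Agent.H33.GrothEx.perfect_example

end Pool.Agent.Results.MP_590c78_gt.PerfectPreimageCounter
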